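import Pool.Agent.H88.TW.Glue

set_option autoImplicit false
set_option linter.unusedSectionVars false

/-!
Nonnegative integral combinations of the words of a binary code with a branch decomposition of
bounded width.
-/

namespace Pool.Agent.H88.TW

open Finset

variable {V E : Type} [Fintype V] [DecidableEq V] [Fintype E] [DecidableEq E]

/-- the binary code with parity check matrix `h` -/
def code (h : E → V → ZMod 2) : Submodule (ZMod 2) (E → ZMod 2) where
  carrier := {x | ∀ c, dp (fn h univ c) x = 0}
  add_mem' := by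
    intro x y hx hy c
    rw [dp_add_right, hx c, hy c, add_zero]
  zero_mem' := by
    intro c
    rw [dp_comm, dp_zero_left]
  smul_mem' := by
    intro a x hx c
    have h1 : dp (fn h univ c) (a • x) = a * dp (fn h univ c) x := by
      unfold dp
      rw [Finset.mul_sum]
      apply Finset.sum_congr rfl
      intro i _
      rw [Pi.smul_apply, smul_eq_mul]
      ring
    rw [h1, hx c, mul_zero]

lemma mem_code (h : E → V → ZMod 2) (x : E → ZMod 2) :
    x ∈ code h ↔ ∀ c, dp (fn h univ c) x = 0 := Iff.rfl

/-- the joint state of two sets of coordinates -/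
def stL (h : E → V → ZMod 2) (A B : Finset E) :
    (E → ZMod 2) →ₗ[ZMod 2] (V ⊕ V → ZMod 2) where
  toFun x := Sum.elim (stA h A x) (stA h B x)
  map_add' x y := by
    ext v
    rcases v with v | v
    · show ∑ e ∈ A, (x + y) e * h e v = ∑ e ∈ A, x e * h e v + ∑ e ∈ A, y e * h e v
      rw [← Finset.sum_add_distrib]
      exact Finset.sum_congr rfl (fun e _ => by rw [Pi.add_apply]; ring)
    · show ∑ e ∈ B, (x + y) e * h e v = ∑ e ∈ B, x e * h e v + ∑ e ∈ B, y e * h e v
      rw [← Finset.sum_add_distrib]
      exact Finset.sum_congr rfl (fun e _ => by rw [Pi.add_apply]; ring)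
  map_smul' a x := by
    ext v
    rcases v with v | v
    · show ∑ e ∈ A, (a • x) e * h e v = a * ∑ e ∈ A, x e * h e v
      rw [Finset.mul_sum]
      exact Finset.sum_congr rfl (fun e _ => by rw [Pi.smul_apply, smul_eq_mul]; ring)
    · show ∑ e ∈ B, (a • x) e * h e v = a * ∑ e ∈ B, x e * h e v
      rw [Finset.mul_sum]
      exact Finset.sum_congr rfl (fun e _ => by rw [Pi.smul_apply, smul_eq_mul]; ring)

lemma dp_elim (c : V ⊕ V → ZMod 2) (s t : V → ZMod 2) :
    dp c (Sum.elim s t) = dp (fun v => c (Sum.inl v)) s + dp (fun v => c (Sum.inr v)) t := by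
  unfold dp
  rw [Fintype.sum_sum_type]
  simp

section
open Classical

/-- Let `h` be a parity check matrix with rows `V`, let `𝒯` be a branch decomposition such that for
every member `A` at most `k` rows have a nonzero entry both in `A` and outside of `A`. If `p` is an
integral combination of words and `p - N` a nonnegative real combination of words, `4 N ≥ 16 ^ k`,
then `p` is a sum of words. -/
theorem code_cover (h : E → V → ZMod 2) (k N : ℕ) (hk : 1 ≤ k) (hN : 16 ^ k ≤ 4 * N)
    (𝒯 : Set (Finset E)) (hE : univ ∈ 𝒯)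
    (hsplit : ∀ A ∈ 𝒯, 1 < A.card → ∃ B ∈ 𝒯, ∃ C ∈ 𝒯, B.Nonempty ∧ C.Nonempty ∧ Disjoint B C ∧
      B ∪ C = A)
    (hwidth : ∀ A ∈ 𝒯, (univ.filter (fun v : V => (∃ e ∈ A, h e v = 1) ∧
      ∃ e, e ∉ A ∧ h e v = 1)).card ≤ k)
    (p : E → ℕ) (z : (E → ZMod 2) → ℝ) (hz0 : ∀ D, 0 ≤ z D) (hzC : ∀ D, D ∉ code h → z D = 0)
    (hzp : ∀ e, ∑ D, z D * (if D e = 1 then 1 else 0) + N = p e)
    (Z : (E → ZMod 2) → ℤ) (hZC : ∀ D, D ∉ code h → Z D = 0)
    (hZp : ∀ e, ∑ D, Z D * (if D e = 1 then 1 else 0) = p e) :
    ∃ (T : ℕ) (x : Fin T → E → ZMod 2), (∀ j, x j ∈ code h) ∧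
      ∀ e, (univ.filter (fun j => x j e = 1)).card = p e := by
  by_cases hEe : IsEmpty E
  · exact ⟨0, fun j => j.elim0, fun j => j.elim0, fun e => (hEe.false e).elim⟩
  rw [not_isEmpty_iff] at hEe
  have hN0 : 0 < N := by
    have : 0 < 16 ^ k := by positivity
    omega
  let Cf : Finset (E → ZMod 2) := univ.filter (fun D => D ∈ code h)
  have hq0 : 0 < Cf.card := Finset.card_pos.2 ⟨0, by simp [Cf]⟩
  have hq0' : (0 : ℝ) < Cf.card := by exact_mod_cast hq0
  -- every coordinate is in half of the words
  have hhalf : ∀ e, 2 * (Cf.filter (fun D => D e = 1)).card = Cf.card := by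
    intro e
    have h1 : ∃ D0 ∈ code h, D0 e = 1 := by
      by_contra hcon
      push Not at hcon
      have h2 : ∑ D, Z D * (if D e = 1 then 1 else 0) = 0 := by
        apply Finset.sum_eq_zero
        intro D _
        by_cases hD : D ∈ code h
        · rw [if_neg (hcon D hD), mul_zero]
        · rw [hZC D hD, zero_mul]
      have h3 : ∑ D, z D * (if D e = 1 then (1 : ℝ) else 0) = 0 := by
        apply Finset.sum_eq_zero
        intro D _
        by_cases hD : D ∈ code h
        · rw [if_neg (hcon D hD), mul_zero]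
        · rw [hzC D hD, zero_mul]
      have h4 := hZp e
      have h5 := hzp e
      rw [h2] at h4
      rw [h3, zero_add] at h5
      have h6 : N = p e := by exact_mod_cast h5
      have h7 : p e = 0 := by exact_mod_cast h4.symm
      omega
    obtain ⟨D0, hD0, hD0e⟩ := h1
    have h2 : (Cf.filter (fun D => D e = 1)).card = (Cf.filter (fun D => ¬ D e = 1)).card := by
      have hxx : ∀ u : E → ZMod 2, u + u = 0 := by
        intro u; ext e; exact z2s _
      refine Finset.card_bij' (fun D _ => D + D0) (fun D _ => D + D0) ?_ ?_ ?_ ?_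
      · intro D hD
        simp only [Cf, Finset.mem_filter, Finset.mem_univ, true_and] at hD ⊢
        refine ⟨(code h).add_mem hD.1 hD0, ?_⟩
        rw [Pi.add_apply, hD.2, hD0e]
        decide
      · intro D hD
        simp only [Cf, Finset.mem_filter, Finset.mem_univ, true_and] at hD ⊢
        refine ⟨(code h).add_mem hD.1 hD0, ?_⟩
        rw [Pi.add_apply, (z2c (D e)).resolve_right hD.2, hD0e, zero_add]
      · intro D _
        show D + D0 + D0 = D
        rw [add_assoc, hxx, add_zero]
      · intro D _
        show D + D0 + D0 = D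
        rw [add_assoc, hxx, add_zero]
    have h3 := Finset.card_filter_add_card_filter_not (s := Cf) (fun D => D e = 1)
    omega
  -- the total number of words
  let S : ℝ := ∑ D, z D + 2 * N
  let T : ℕ := ⌈S⌉₊
  have hST : S ≤ T := Nat.le_ceil S
  let z' : (E → ZMod 2) → ℝ := fun D =>
    z D + (if D ∈ code h then (2 * (N : ℝ) / (Cf.card : ℝ)) else 0) +
      (if D = 0 then (T : ℝ) - S else 0)
  let Z' : (E → ZMod 2) → ℤ := fun D => Z D + (if D = 0 then T - ∑ D, Z D else 0)
  have h0C : (0 : E → ZMod 2) ∈ code h := (code h).zero_mem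
  have hz'C : ∀ D, D ∉ code h → z' D = 0 := by
    intro D hD
    have h1 : D ≠ 0 := fun h1 => hD (h1 ▸ h0C)
    simp only [z', hzC D hD, if_neg hD, if_neg h1, add_zero]
  have hZ'C : ∀ D, D ∉ code h → Z' D = 0 := by
    intro D hD
    have h1 : D ≠ 0 := fun h1 => hD (h1 ▸ h0C)
    simp only [Z', hZC D hD, if_neg h1, add_zero]
  have hunif : ∑ D : E → ZMod 2, (if D ∈ code h then (2 * N / Cf.card : ℝ) else 0) = 2 * N := by
    rw [← Finset.sum_filter]
    show ∑ D ∈ Cf, (2 * N / Cf.card : ℝ) = 2 * N
    rw [Finset.sum_const, nsmul_eq_mul]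
    field_simp
  have hz'T : ∑ D, z' D = T := by
    simp only [z']
    rw [Finset.sum_add_distrib, Finset.sum_add_distrib, hunif, Finset.sum_ite_eq' univ (0 : E → ZMod 2),
      if_pos (Finset.mem_univ _)]
    simp only [S]
    ring
  have hZ'T : ∑ D, Z' D = T := by
    simp only [Z']
    rw [Finset.sum_add_distrib, Finset.sum_ite_eq' univ (0 : E → ZMod 2),
      if_pos (Finset.mem_univ _)]
    ring
  have hz'p : ∀ e, ∑ D, z' D * (if D e = 1 then 1 else 0) = p e := by
    intro e
    have h1 : ∀ D ∈ (univ : Finset (E → ZMod 2)), z' D * (if D e = 1 then (1 : ℝ) else 0) =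
        z D * (if D e = 1 then 1 else 0) +
          (if D ∈ code h then (if D e = 1 then (2 * N / Cf.card : ℝ) else 0) else 0) := by
      intro D _
      simp only [z']
      by_cases hD : D e = 1
      · have h2 : D ≠ 0 := by
          intro h2
          rw [h2, Pi.zero_apply] at hD
          exact absurd hD (by decide)
        rw [if_neg h2, if_pos hD, if_pos hD]
        ring
      · rw [if_neg hD, if_neg hD]
        split_ifs <;> ring
    rw [Finset.sum_congr rfl h1, Finset.sum_add_distrib, ← Finset.sum_filter]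
    have h2 : ∑ D ∈ Cf, (if D e = 1 then (2 * N / Cf.card : ℝ) else 0) = N := by
      rw [← Finset.sum_filter, Finset.sum_const, nsmul_eq_mul]
      have h3 : (2 : ℝ) * (Cf.filter (fun D => D e = 1)).card = Cf.card := by
        exact_mod_cast hhalf e
      rw [mul_div_assoc']
      rw [div_eq_iff hq0'.ne', ← h3]
      ring
    show _ + ∑ D ∈ Cf, (if D e = 1 then (2 * N / Cf.card : ℝ) else 0) = _
    rw [h2]
    exact hzp e
  have hZ'p : ∀ e, ∑ D, Z' D * (if D e = 1 then 1 else 0) = p e := by
    intro e
    rw [← hZp e]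
    apply Finset.sum_congr rfl
    intro D _
    simp only [Z']
    by_cases hD : D e = 1
    · have h2 : D ≠ 0 := by
        intro h2
        rw [h2, Pi.zero_apply] at hD
        exact absurd hD (by decide)
      rw [if_neg h2, add_zero]
    · rw [if_neg hD, mul_zero, mul_zero]
  have hz'0 : ∀ D, 0 ≤ z' D := by
    intro D
    simp only [z']
    have h1 := hz0 D
    have h2 : (0 : ℝ) ≤ 2 * N / Cf.card := by positivity
    have h3 : 0 ≤ (T : ℝ) - S := by linarith
    split_ifs <;> linarith
  have hlow : ∀ D ∈ code h, (2 * N : ℝ) ≤ z' D * Cf.card := by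
    intro D hD
    simp only [z']
    rw [if_pos hD]
    have h1 := hz0 D
    have h3 : 0 ≤ (T : ℝ) - S := by linarith
    have h4 : (2 * N / Cf.card : ℝ) * Cf.card = 2 * N := by field_simp
    have h5 : (0 : ℝ) ≤ (if D = 0 then (T : ℝ) - S else 0) := by split_ifs <;> linarith
    nlinarith [mul_nonneg h1 hq0'.le, mul_nonneg h5 hq0'.le]
  let M : ℕ := 2 ^ (2 * k - 1)
  have hM : 2 * M = 2 ^ (2 * k) := by
    have h1 : 2 * k = 2 * k - 1 + 1 := by omega
    conv_rhs => rw [h1]
    rw [pow_succ, mul_comm]
  have hNr : 4 ^ (2 * k) ≤ 4 * N := by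
    rw [pow_mul]
    exact hN
  -- values of the rounded function
  have hzero : ∀ f : E → ZMod 2, (∀ D ∈ code h, dp f D = 0) → rn M z' Z' f = 0 := by
    intro f hf
    have h1 : yy z' f = 0 := by
      unfold yy
      apply Finset.sum_eq_zero
      intro D _
      by_cases hD : D ∈ code h
      · rw [hf D hD, if_neg (by decide), mul_zero]
      · rw [hz'C D hD, zero_mul]
    have h2 : nn Z' f = 0 := by
      unfold nn
      apply Finset.sum_eq_zero
      intro D _
      by_cases hD : D ∈ code h
      · rw [hf D hD, if_neg (by decide), mul_zero]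
      · rw [hZ'C D hD, zero_mul]
    rw [rn_eq M z' Z' f (by rw [h1, h2]; simp), h2]
  have hsingle : ∀ e, rn M z' Z' (Pi.single e 1) = p e := by
    intro e
    have h1 : yy z' (Pi.single e 1) = p e := by
      rw [← hz'p e]
      unfold yy
      exact Finset.sum_congr rfl (fun D _ => by rw [dp_single_left])
    have h2 : nn Z' (Pi.single e 1) = p e := by
      rw [← hZ'p e]
      unfold nn
      exact Finset.sum_congr rfl (fun D _ => by rw [dp_single_left])
    rw [rn_eq M z' Z' _ (by rw [h1, h2]; push_cast; rfl), h2]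
  have hpT : ∀ e, p e ≤ T := by
    intro e
    have h1 : (p e : ℝ) ≤ T := by
      rw [← hz'p e, ← hz'T]
      apply Finset.sum_le_sum
      intro D _
      have := hz'0 D
      split_ifs
      · rw [mul_one]
      · rw [mul_zero]; exact this
    exact_mod_cast h1
  have hstA : ∀ A ∈ 𝒯, ∀ D ∈ code h, ∀ v, v ∉ univ.filter (fun v : V => (∃ e ∈ A, h e v = 1) ∧
      ∃ e, e ∉ A ∧ h e v = 1) → stA h A D v = 0 := by
    intro A _ D hD v hv
    simp only [Finset.mem_filter, Finset.mem_univ, true_and, not_and_or] at hv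
    rcases hv with hv | hv
    · push Not at hv
      unfold stA
      apply Finset.sum_eq_zero
      intro e he
      rw [(z2c (h e v)).resolve_right (hv e he), mul_zero]
    · push Not at hv
      have h1 := (mem_code h D).1 hD (Pi.single v 1)
      rw [← dp_stA, dp_single_left] at h1
      rw [← h1]
      unfold stA
      apply Finset.sum_subset (Finset.subset_univ A)
      intro e _ he
      rw [(z2c (h e v)).resolve_right (hv e he), mul_zero]
  obtain ⟨x, hx1, hx2⟩ := assemble h T (rn M z' Z') p hpT
    (hzero 0 (fun D _ => dp_zero_left D)) hsingle 𝒯 hsplit (by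
      intro A hA B hB _
      apply local_round (code h) T N (2 * k) M z' Z' hz'C hZ'C hz'T hZ'T hlow hM hNr
        (stL h A B) (fun c => fn h A (fun v => c (Sum.inl v)) + fn h B (fun v => c (Sum.inr v)))
        (by
          intro c D _
          show dp _ D = dp c (Sum.elim (stA h A D) (stA h B D))
          rw [dp_elim, dp_stA, dp_stA, dp_add_left])
        ((univ.filter (fun v : V => (∃ e ∈ A, h e v = 1) ∧
          ∃ e, e ∉ A ∧ h e v = 1)).disjSum (univ.filter (fun v : V => (∃ e ∈ B, h e v = 1) ∧
          ∃ e, e ∉ B ∧ h e v = 1)))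
      · intro D hD i hi
        rcases i with v | v
        · apply hstA A hA D hD v
          intro hv
          exact hi (Finset.inl_mem_disjSum.2 hv)
        · apply hstA B hB D hD v
          intro hv
          exact hi (Finset.inr_mem_disjSum.2 hv)
      · rw [Finset.card_disjSum]
        have h1 := hwidth A hA
        have h2 := hwidth B hB
        omega) _ univ hE rfl Finset.univ_nonempty
  refine ⟨T, x, ?_, fun e => hx1 e (Finset.mem_univ e)⟩
  intro j
  rw [mem_code]
  intro c
  have h1 := hx2 c
  rw [hzero (fn h univ c) (fun D hD => (mem_code h D).1 hD c)] at h1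
  have h2 : (univ.filter (fun j => dp (fn h univ c) (x j) = 1)).card = 0 := by exact_mod_cast h1
  rw [Finset.card_eq_zero, Finset.filter_eq_empty_iff] at h2
  exact (z2c _).resolve_right (h2 (Finset.mem_univ j))

end

end Pool.Agent.H88.TW
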