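import Mathlib

set_option autoImplicit false
set_option linter.unusedSectionVars false

/-!
Characters of the group of all functions from a finite set to the field with two elements.
-/

namespace Pool.Agent.H88.TW

open Finset

/-- the sign of an element of the field with two elements -/
def sg (a : ZMod 2) : ℤ := if a = 0 then 1 else -1

lemma sg_add (a b : ZMod 2) : sg (a + b) = sg a * sg b := by revert a b; decide
lemma sg_zero : sg 0 = 1 := by decide
lemma sg_one : sg 1 = -1 := by decide
lemma sg_eq (a : ZMod 2) : sg a = 1 - 2 * (if a = 1 then 1 else 0) := by revert a; decide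
lemma sg_abs (a : ZMod 2) : |sg a| = 1 := by revert a; decide
lemma z2c (a : ZMod 2) : a = 0 ∨ a = 1 := by revert a; decide
lemma z2s (a : ZMod 2) : a + a = 0 := by revert a; decide

variable {ι : Type} [Fintype ι] [DecidableEq ι]

/-- the scalar product -/
def dp (c s : ι → ZMod 2) : ZMod 2 := ∑ i, c i * s i

lemma dp_add_left (c d s : ι → ZMod 2) : dp (c + d) s = dp c s + dp d s := by
  unfold dp
  rw [← Finset.sum_add_distrib]
  apply Finset.sum_congr rfl
  intro i _
  rw [Pi.add_apply, add_mul]

lemma dp_add_right (c s t : ι → ZMod 2) : dp c (s + t) = dp c s + dp c t := by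
  unfold dp
  rw [← Finset.sum_add_distrib]
  apply Finset.sum_congr rfl
  intro i _
  rw [Pi.add_apply, mul_add]

lemma dp_zero_left (s : ι → ZMod 2) : dp 0 s = 0 := by
  unfold dp; simp

lemma dp_single_right (c : ι → ZMod 2) (i : ι) : dp c (Pi.single i 1) = c i := by
  unfold dp
  rw [Finset.sum_eq_single i]
  · simp
  · intro j _ hj
    simp [hj]
  · intro h; exact absurd (Finset.mem_univ _) h

lemma dp_single_left (s : ι → ZMod 2) (i : ι) : dp (Pi.single i 1) s = s i := by
  unfold dp
  rw [Finset.sum_eq_single i]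
  · simp
  · intro j _ hj
    simp [hj]
  · intro h; exact absurd (Finset.mem_univ _) h

/-- orthogonality of the characters -/
lemma sum_sg (c : ι → ZMod 2) :
    ∑ s : ι → ZMod 2, sg (dp c s) = if c = 0 then 2 ^ Fintype.card ι else 0 := by
  by_cases hc : c = 0
  · rw [if_pos hc]
    have h1 : ∀ s ∈ (univ : Finset (ι → ZMod 2)), sg (dp c s) = 1 := by
      intro s _
      rw [hc, dp_zero_left, sg_zero]
    rw [Finset.sum_congr rfl h1, Finset.sum_const, Finset.card_univ, Fintype.card_fun]
    simp [ZMod.card]
  · rw [if_neg hc]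
    obtain ⟨i, hi⟩ := Function.ne_iff.1 hc
    have hi1 : c i = 1 := by
      rcases z2c (c i) with h | h
      · exact absurd h hi
      · exact h
    have h1 : ∑ s : ι → ZMod 2, sg (dp c s) = ∑ s : ι → ZMod 2, sg (dp c (s + Pi.single i 1)) :=
      (Fintype.sum_equiv (Equiv.addRight (Pi.single i (1 : ZMod 2) : ι → ZMod 2)) _ _
        (fun s => rfl)).symm
    have h2 : ∑ s : ι → ZMod 2, sg (dp c (s + Pi.single i 1)) =
        - ∑ s : ι → ZMod 2, sg (dp c s) := by
      rw [← Finset.sum_neg_distrib]
      apply Finset.sum_congr rfl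
      intro s _
      rw [dp_add_right, dp_single_right, hi1, sg_add, sg_one]
      ring
    omega

/-- inversion formula -/
lemma inv_formula {R : Type} [CommRing R] (Z : (ι → ZMod 2) → R) (s : ι → ZMod 2) :
    ∑ c : ι → ZMod 2, ((sg (dp c s) : ℤ) : R) * ∑ t : ι → ZMod 2, ((sg (dp c t) : ℤ) : R) * Z t =
      2 ^ Fintype.card ι * Z s := by
  have h1 : ∀ c ∈ (univ : Finset (ι → ZMod 2)),
      ((sg (dp c s) : ℤ) : R) * ∑ t : ι → ZMod 2, ((sg (dp c t) : ℤ) : R) * Z t =
      ∑ t : ι → ZMod 2, ((sg (dp c (s + t)) : ℤ) : R) * Z t := by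
    intro c _
    rw [Finset.mul_sum]
    apply Finset.sum_congr rfl
    intro t _
    rw [dp_add_right, sg_add]
    push_cast
    ring
  rw [Finset.sum_congr rfl h1, Finset.sum_comm]
  have h2 : ∀ t ∈ (univ : Finset (ι → ZMod 2)),
      ∑ c : ι → ZMod 2, ((sg (dp c (s + t)) : ℤ) : R) * Z t =
      if t = s then 2 ^ Fintype.card ι * Z s else 0 := by
    intro t _
    rw [← Finset.sum_mul, ← Int.cast_sum]
    have h3 : ∑ c : ι → ZMod 2, sg (dp c (s + t)) = ∑ c : ι → ZMod 2, sg (dp (s + t) c) := by
      apply Finset.sum_congr rfl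
      intro c _
      have : dp c (s + t) = dp (s + t) c := by
        unfold dp
        exact Finset.sum_congr rfl (fun i _ => mul_comm _ _)
      rw [this]
    rw [h3, sum_sg]
    by_cases h : t = s
    · have h4 : s + t = 0 := by
        rw [h]; ext i; exact z2s _
      rw [if_pos h4, if_pos h, h]
      push_cast
      ring
    · have h4 : s + t ≠ 0 := by
        intro h5
        apply h
        ext i
        have h6 := congrFun h5 i
        rw [Pi.add_apply, Pi.zero_apply] at h6
        rcases z2c (s i) with h7 | h7 <;> rcases z2c (t i) with h8 | h8 <;> rw [h7, h8] at h6 ⊢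
        · rw [zero_add] at h6
          exact absurd h6 (by decide)
        · rw [add_zero] at h6
          exact absurd h6 (by decide)
      rw [if_neg h4, if_neg h]
      push_cast
      ring
  rw [Finset.sum_congr rfl h2, Finset.sum_ite_eq' univ s, if_pos (Finset.mem_univ _)]

/-- a function is determined by its transform -/
lemma transform_inj (Z Z' : (ι → ZMod 2) → ℤ)
    (h : ∀ c, ∑ t : ι → ZMod 2, sg (dp c t) * Z t = ∑ t : ι → ZMod 2, sg (dp c t) * Z' t) :
    ∀ s, Z s = Z' s := by
  intro s
  have h1 := inv_formula Z s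
  have h2 := inv_formula Z' s
  simp only [Int.cast_id] at h1 h2
  have h3 : (2 : ℤ) ^ Fintype.card ι * Z s = 2 ^ Fintype.card ι * Z' s := by
    rw [← h1, ← h2]
    apply Finset.sum_congr rfl
    intro c _
    rw [h c]
  exact mul_left_cancel₀ (by positivity) h3

/-- divisibility of the transform of a function which does not depend on some coordinates -/
lemma dvd_transform (s : ι → ZMod 2) (U : Finset ι) : ∀ g : (ι → ZMod 2) → ℤ,
    (∀ i ∈ U, ∀ c, g (c + Pi.single i 1) = g c) →
    (2 : ℤ) ^ U.card ∣ ∑ c : ι → ZMod 2, sg (dp c s) * g c := by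
  induction U using Finset.induction_on with
  | empty => intro g _; simp
  | insert i U hi ih =>
    intro g hg
    have h1 := ih (fun c => if c i = 0 then g c else 0) (by
      intro j hj c
      have hji : i ≠ j := fun h => hi (h ▸ hj)
      have h2 : (c + Pi.single j 1 : ι → ZMod 2) i = c i := by
        rw [Pi.add_apply, Pi.single_eq_of_ne hji, add_zero]
      show (if (c + Pi.single j 1 : ι → ZMod 2) i = 0 then g (c + Pi.single j 1) else 0) =
        if c i = 0 then g c else 0
      rw [h2, hg j (Finset.mem_insert_of_mem hj) c])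
    have h2 : ∑ c : ι → ZMod 2, sg (dp c s) * g c =
        ∑ c : ι → ZMod 2, sg (dp c s) * (if c i = 0 then g c else 0) +
        ∑ c : ι → ZMod 2, sg (dp c s) * (if c i = 0 then 0 else g c) := by
      rw [← Finset.sum_add_distrib]
      apply Finset.sum_congr rfl
      intro c _
      split_ifs <;> ring
    have h3 : ∑ c : ι → ZMod 2, sg (dp c s) * (if c i = 0 then 0 else g c) =
        ∑ c : ι → ZMod 2, sg (dp (c + Pi.single i 1) s) *
          (if (c + Pi.single i 1 : ι → ZMod 2) i = 0 then 0 else g (c + Pi.single i 1)) :=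
      (Fintype.sum_equiv (Equiv.addRight (Pi.single i (1 : ZMod 2) : ι → ZMod 2)) _ _
        (fun s => rfl)).symm
    have h4 : ∑ c : ι → ZMod 2, sg (dp (c + Pi.single i 1) s) *
          (if (c + Pi.single i 1 : ι → ZMod 2) i = 0 then 0 else g (c + Pi.single i 1)) =
        sg (s i) * ∑ c : ι → ZMod 2, sg (dp c s) * (if c i = 0 then g c else 0) := by
      rw [Finset.mul_sum]
      apply Finset.sum_congr rfl
      intro c _
      rw [hg i (Finset.mem_insert_self _ _) c, dp_add_left, dp_single_left, sg_add, Pi.add_apply,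
        Pi.single_eq_same]
      have h01 : (1 : ZMod 2) ≠ 0 := by decide
      have h11 : (1 : ZMod 2) + 1 = 0 := by decide
      rcases z2c (c i) with h5 | h5
      · rw [h5, zero_add, if_neg h01, if_pos rfl]
        ring
      · rw [h5, h11, if_pos rfl, if_neg h01]
        ring
    rw [h2, h3, h4, Finset.card_insert_of_notMem hi, pow_succ]
    rcases z2c (s i) with h5 | h5
    · rw [h5, sg_zero, one_mul, ← two_mul, mul_comm]
      exact mul_dvd_mul_left _ h1
    · rw [h5, sg_one]
      simp

/-- a vector outside a subspace is separated from it -/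
lemma exists_sep (S : Submodule (ZMod 2) (ι → ZMod 2)) (s : ι → ZMod 2) (hs : s ∉ S) :
    ∃ c : ι → ZMod 2, dp c s = 1 ∧ ∀ t ∈ S, dp c t = 0 := by
  obtain ⟨f, hf1, hf2⟩ := Submodule.exists_dual_map_eq_bot_of_notMem hs inferInstance
  have hf : ∀ t : ι → ZMod 2, f t = dp (fun i => f (Pi.single i 1)) t := by
    intro t
    have h1 : t = ∑ i, t i • (Pi.single i 1 : ι → ZMod 2) := by
      ext j
      rw [Finset.sum_apply, Finset.sum_eq_single j]
      · simp
      · intro i _ hij
        simp [hij.symm]
      · intro h; exact absurd (Finset.mem_univ _) h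
    conv_lhs => rw [h1]
    rw [map_sum]
    unfold dp
    apply Finset.sum_congr rfl
    intro i _
    rw [map_smul, smul_eq_mul, mul_comm]
  refine ⟨fun i => f (Pi.single i 1), ?_, ?_⟩
  · rw [← hf]
    rcases z2c (f s) with h | h
    · exact absurd h hf1
    · exact h
  · intro t ht
    rw [← hf]
    have h1 : f t ∈ S.map f := Submodule.mem_map_of_mem ht
    rw [hf2] at h1
    exact (Submodule.mem_bot _).1 h1

/-- number of functions with support in `J` -/
lemma card_support_le (J : Finset ι) (S : Finset (ι → ZMod 2))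
    (hS : ∀ s ∈ S, ∀ i, i ∉ J → s i = 0) : S.card ≤ 2 ^ J.card := by
  have h1 : S.card ≤ Fintype.card (J → ZMod 2) := by
    rw [← Finset.card_univ]
    apply Finset.card_le_card_of_injOn (fun s => fun i : J => s i.1) (fun s _ => Finset.mem_univ _)
    intro s hs t ht hst
    ext i
    by_cases hi : i ∈ J
    · exact congrFun hst ⟨i, hi⟩
    · rw [hS s hs i hi, hS t ht i hi]
  rw [Fintype.card_fun, ZMod.card, Fintype.card_coe] at h1
  exact h1

end Pool.Agent.H88.TW
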