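import Pool.Agent.H88.TW.Local

set_option autoImplicit false
set_option linter.unusedSectionVars false

/-!
Assembling families of words of a binary code along a branch decomposition.
-/

namespace Pool.Agent.H88.TW

open Finset

variable {V E : Type} [Fintype V] [DecidableEq V] [Fintype E] [DecidableEq E]

/-- the functional given by a set `A` of coordinates and a vector `c`; the vector `h e` is the
column of the coordinate `e` of a parity check matrix -/
def fn (h : E → V → ZMod 2) (A : Finset E) (c : V → ZMod 2) : E → ZMod 2 :=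
  fun e => if e ∈ A then dp c (h e) else 0

/-- the state of `x` on `A` -/
def stA (h : E → V → ZMod 2) (A : Finset E) (x : E → ZMod 2) : V → ZMod 2 :=
  fun v => ∑ e ∈ A, x e * h e v

lemma dp_stA (h : E → V → ZMod 2) (A : Finset E) (c : V → ZMod 2) (x : E → ZMod 2) :
    dp c (stA h A x) = dp (fn h A c) x := by
  unfold dp stA fn dp
  have h1 : ∀ e ∈ (univ : Finset E),
      (if e ∈ A then ∑ v, c v * h e v else 0) * x e =
        if e ∈ A then ∑ v, c v * (x e * h e v) else 0 := by
    intro e _
    split_ifs
    · rw [Finset.sum_mul]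
      exact Finset.sum_congr rfl (fun v _ => by ring)
    · rw [zero_mul]
  rw [Finset.sum_congr rfl h1, ← Finset.sum_filter, Finset.filter_mem_eq_inter,
    Finset.univ_inter, Finset.sum_comm]
  apply Finset.sum_congr rfl
  intro v _
  rw [Finset.mul_sum]

lemma fn_zero (h : E → V → ZMod 2) (A : Finset E) : fn h A 0 = 0 := by
  ext e
  unfold fn
  split_ifs
  · rw [dp_zero_left]; rfl
  · rfl

lemma fn_union (h : E → V → ZMod 2) (A B : Finset E) (hAB : Disjoint A B) (c : V → ZMod 2) :
    fn h A c + fn h B c = fn h (A ∪ B) c := by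
  ext e
  rw [Pi.add_apply]
  unfold fn
  by_cases hA : e ∈ A
  · have hB : e ∉ B := Finset.disjoint_left.1 hAB hA
    simp [hA, hB]
  · by_cases hB : e ∈ B <;> simp [hA, hB]

lemma sum_sg_count {J : Type} [Fintype J] (φ : J → ZMod 2) :
    ∑ j, sg (φ j) = Fintype.card J - 2 * ((univ.filter (fun j => φ j = 1)).card : ℤ) := by
  have h1 : ∀ j ∈ (univ : Finset J), sg (φ j) = 1 - 2 * (if φ j = 1 then 1 else 0) :=
    fun j _ => sg_eq _
  rw [Finset.sum_congr rfl h1, Finset.sum_sub_distrib, ← Finset.mul_sum, Finset.sum_boole,
    Finset.sum_const, Finset.card_univ]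
  simp

lemma exists_coupling {J S W : Type} [Fintype J] [Fintype W] [DecidableEq S] (α : J → S)
    (γ : W → S)
    (h : ∀ s, (univ.filter (fun j => α j = s)).card = (univ.filter (fun w => γ w = s)).card) :
    ∃ u : J ≃ W, ∀ j, γ (u j) = α j := by
  classical
  have h1 : ∀ s, Nonempty ({j // α j = s} ≃ {w // γ w = s}) := by
    intro s
    refine ⟨Fintype.equivOfCardEq ?_⟩
    rw [Fintype.card_subtype, Fintype.card_subtype]
    exact h s
  exact ⟨Equiv.ofFiberEquiv (fun s => (h1 s).some),
    fun j => Equiv.ofFiberEquiv_map (fun s => (h1 s).some) j⟩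

lemma card_fin_lt (T p : ℕ) (h : p ≤ T) :
    (univ.filter (fun j : Fin T => j.1 < p)).card = p := by
  rw [Finset.card_filter, Fin.sum_univ_eq_sum_range (fun i => if i < p then 1 else 0) T,
    ← Finset.card_filter]
  have h1 : (Finset.range T).filter (fun i => i < p) = Finset.range p := by
    ext i
    rw [Finset.mem_filter, Finset.mem_range, Finset.mem_range]
    omega
  rw [h1, Finset.card_range]

/-- Assembling. -/
theorem assemble (h : E → V → ZMod 2) (T : ℕ) (n : (E → ZMod 2) → ℤ) (p : E → ℕ)
    (hp : ∀ e, p e ≤ T) (h0 : n 0 = 0) (h1 : ∀ e, n (Pi.single e 1) = p e)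
    (𝒯 : Set (Finset E))
    (hsplit : ∀ A ∈ 𝒯, 1 < A.card → ∃ B ∈ 𝒯, ∃ C ∈ 𝒯, B.Nonempty ∧ C.Nonempty ∧ Disjoint B C ∧
      B ∪ C = A)
    (hloc : ∀ A ∈ 𝒯, ∀ B ∈ 𝒯, Disjoint A B → ∃ Z : (V ⊕ V → ZMod 2) → ℤ, (∀ s, 0 ≤ Z s) ∧
      ∀ c, ∑ s, sg (dp c s) * Z s =
        T - 2 * n (fn h A (fun v => c (Sum.inl v)) + fn h B (fun v => c (Sum.inr v)))) :
    ∀ m, ∀ A ∈ 𝒯, A.card = m → A.Nonempty → ∃ x : Fin T → E → ZMod 2,
      (∀ e ∈ A, (univ.filter (fun j => x j e = 1)).card = p e) ∧
      ∀ c, ((univ.filter (fun j => dp (fn h A c) (x j) = 1)).card : ℤ) = n (fn h A c) := by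
  classical
  intro m
  induction m using Nat.strong_induction_on with
  | _ m ih =>
  intro A hA hm hne
  have hpos : 0 < A.card := Finset.card_pos.2 hne
  by_cases hc1 : A.card = 1
  · -- a leaf
    obtain ⟨e, rfl⟩ := Finset.card_eq_one.1 hc1
    refine ⟨fun j => if j.1 < p e then Pi.single e 1 else 0, ?_, ?_⟩
    · intro f hf
      rw [Finset.mem_singleton] at hf
      subst hf
      have h2 : (univ.filter (fun j : Fin T =>
          (if j.1 < p f then (Pi.single f 1 : E → ZMod 2) else 0) f = 1)) =
          univ.filter (fun j : Fin T => j.1 < p f) := by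
        apply Finset.filter_congr
        intro j _
        by_cases hj : j.1 < p f
        · rw [if_pos hj, Pi.single_eq_same]; simp [hj]
        · rw [if_neg hj]; simp [hj]
      rw [h2, card_fin_lt T _ (hp f)]
    · intro c
      rcases z2c (dp c (h e)) with h3 | h3
      · have h4 : fn h {e} c = 0 := by
          ext f
          unfold fn
          by_cases hf : f ∈ ({e} : Finset E)
          · rw [Finset.mem_singleton] at hf
            subst hf
            rw [if_pos (Finset.mem_singleton_self _), h3]; rfl
          · rw [if_neg hf]; rfl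
        rw [h4, h0]
        have h5 : (univ.filter (fun j : Fin T => dp (0 : E → ZMod 2)
            (if j.1 < p e then (Pi.single e 1 : E → ZMod 2) else 0) = 1)) = ∅ := by
          rw [Finset.filter_eq_empty_iff]
          intro j _
          rw [dp_zero_left]
          decide
        rw [h5, Finset.card_empty]; rfl
      · have h4 : fn h {e} c = Pi.single e 1 := by
          ext f
          unfold fn
          by_cases hf : f = e
          · subst hf
            rw [if_pos (Finset.mem_singleton_self _), h3, Pi.single_eq_same]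
          · rw [if_neg (by rw [Finset.mem_singleton]; exact hf), Pi.single_eq_of_ne hf]
        rw [h4, h1 e]
        have h2 : (univ.filter (fun j : Fin T => dp (Pi.single e 1 : E → ZMod 2)
            (if j.1 < p e then (Pi.single e 1 : E → ZMod 2) else 0) = 1)) =
            univ.filter (fun j : Fin T => j.1 < p e) := by
          apply Finset.filter_congr
          intro j _
          rw [dp_single_left]
          by_cases hj : j.1 < p e
          · rw [if_pos hj, Pi.single_eq_same]; simp [hj]
          · rw [if_neg hj]; simp [hj]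
        rw [h2, card_fin_lt T _ (hp e)]
  · -- a node
    obtain ⟨B, hB, C, hC, hBne, hCne, hBC, hU⟩ := hsplit A hA (by omega)
    have hcard : B.card + C.card = A.card := by rw [← hU, Finset.card_union_of_disjoint hBC]
    have hB0 : 0 < B.card := Finset.card_pos.2 hBne
    have hC0 : 0 < C.card := Finset.card_pos.2 hCne
    obtain ⟨x1, hx1, hy1⟩ := ih B.card (by omega) B hB rfl hBne
    obtain ⟨x2, hx2, hy2⟩ := ih C.card (by omega) C hC rfl hCne
    obtain ⟨Z, hZ0, hZ⟩ := hloc B hB C hC hBC
    let W : Type := Σ s : (V ⊕ V → ZMod 2), Fin (Z s).toNat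
    have hZc : ∀ s, ((Z s).toNat : ℤ) = Z s := fun s => Int.toNat_of_nonneg (hZ0 s)
    -- transforms of marginals
    have hWsum : ∀ φ : (V ⊕ V → ZMod 2) → ℤ, ∑ w : W, φ w.1 = ∑ s, φ s * Z s := by
      intro φ
      rw [Fintype.sum_sigma]
      apply Finset.sum_congr rfl
      intro s _
      show ∑ _y : Fin (Z s).toNat, φ s = φ s * Z s
      rw [Finset.sum_const, Finset.card_univ, Fintype.card_fin, nsmul_eq_mul, hZc s, mul_comm]
    have hmarg : ∀ (ψ : (V ⊕ V → ZMod 2) → (V → ZMod 2)) (D : Finset E)
        (x : Fin T → E → ZMod 2)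
        (_ : ∀ c : V → ZMod 2, ∑ s, sg (dp c (ψ s)) * Z s = T - 2 * n (fn h D c))
        (_ : ∀ c, ((univ.filter (fun j => dp (fn h D c) (x j) = 1)).card : ℤ) = n (fn h D c)),
        ∃ u : Fin T ≃ W, ∀ j, ψ (u j).1 = stA h D (x j) := by
      intro ψ D x hψ hx
      apply exists_coupling (fun j => stA h D (x j)) (fun w : W => ψ w.1)
      intro s
      have h2 := transform_inj
        (fun t => ((univ.filter (fun j => stA h D (x j) = t)).card : ℤ))
        (fun t => ((univ.filter (fun w : W => ψ w.1 = t)).card : ℤ)) (by
          intro c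
          have h3 : ∀ {J : Type} [Fintype J] (φ : J → (V → ZMod 2)),
              ∑ t : V → ZMod 2, sg (dp c t) * ((univ.filter (fun j => φ j = t)).card : ℤ) =
                ∑ j, sg (dp c (φ j)) := by
            intro J _ φ
            have h4 : ∀ t ∈ (univ : Finset (V → ZMod 2)),
                sg (dp c t) * ((univ.filter (fun j => φ j = t)).card : ℤ) =
                ∑ j, if φ j = t then sg (dp c t) else 0 := by
              intro t _
              rw [← Finset.sum_filter, Finset.sum_const, nsmul_eq_mul, mul_comm]
            rw [Finset.sum_congr rfl h4, Finset.sum_comm]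
            apply Finset.sum_congr rfl
            intro j _
            rw [Finset.sum_ite_eq univ (φ j), if_pos (Finset.mem_univ _)]
          rw [h3 (fun j => stA h D (x j)), h3 (fun w : W => ψ w.1)]
          rw [hWsum (fun s => sg (dp c (ψ s))), hψ c]
          have h5 : ∀ j ∈ (univ : Finset (Fin T)), sg (dp c (stA h D (x j))) =
              sg (dp (fn h D c) (x j)) := by
            intro j _
            rw [dp_stA]
          rw [Finset.sum_congr rfl h5, sum_sg_count, hx c, Fintype.card_fin]) s
      exact_mod_cast h2
    have hdpl : ∀ (c : V → ZMod 2) (s : V ⊕ V → ZMod 2),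
        dp (Sum.elim c 0) s = dp c (fun v => s (Sum.inl v)) := by
      intro c s
      unfold dp
      rw [Fintype.sum_sum_type]
      simp
    have hdpr : ∀ (c : V → ZMod 2) (s : V ⊕ V → ZMod 2),
        dp (Sum.elim 0 c) s = dp c (fun v => s (Sum.inr v)) := by
      intro c s
      unfold dp
      rw [Fintype.sum_sum_type]
      simp
    obtain ⟨u1, hu1⟩ := hmarg (fun s v => s (Sum.inl v)) B x1 (by
      intro c
      have h2 := hZ (Sum.elim c 0)
      simp only [Sum.elim_inl, Sum.elim_inr] at h2
      rw [show (fun v : V => c v) = c from rfl,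
        show (fun v : V => (0 : V → ZMod 2) v) = 0 from rfl, fn_zero, add_zero] at h2
      rw [← h2]
      apply Finset.sum_congr rfl
      intro s _
      rw [hdpl]) hy1
    obtain ⟨u2, hu2⟩ := hmarg (fun s v => s (Sum.inr v)) C x2 (by
      intro c
      have h2 := hZ (Sum.elim 0 c)
      simp only [Sum.elim_inl, Sum.elim_inr] at h2
      rw [show (fun v : V => c v) = c from rfl,
        show (fun v : V => (0 : V → ZMod 2) v) = 0 from rfl, fn_zero, zero_add] at h2
      rw [← h2]
      apply Finset.sum_congr rfl
      intro s _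
      rw [hdpr]) hy2
    let σ : Fin T ≃ Fin T := u1.trans u2.symm
    have hσ : ∀ j, u2 (σ j) = u1 j := fun j => by
      show u2 (u2.symm (u1 j)) = u1 j
      exact Equiv.apply_symm_apply u2 _
    refine ⟨fun j e => if e ∈ B then x1 j e else x2 (σ j) e, ?_, ?_⟩
    · intro e he
      by_cases heB : e ∈ B
      · simp only [if_pos heB]
        exact hx1 e heB
      · simp only [if_neg heB]
        have heC : e ∈ C := by
          rw [← hU, Finset.mem_union] at he
          exact he.resolve_left heB
        rw [← hx2 e heC]
        apply Finset.card_bij (fun j _ => σ j)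
        · intro j hj
          simp only [Finset.mem_filter, Finset.mem_univ, true_and] at hj ⊢
          exact hj
        · intro j _ j' _ hjj
          exact σ.injective hjj
        · intro j hj
          refine ⟨σ.symm j, ?_, Equiv.apply_symm_apply σ j⟩
          simp only [Finset.mem_filter, Finset.mem_univ, true_and] at hj ⊢
          rw [Equiv.apply_symm_apply]
          exact hj
    · intro c
      have h2 := hZ (Sum.elim c c)
      simp only [Sum.elim_inl, Sum.elim_inr] at h2
      rw [show (fun v : V => c v) = c from rfl, fn_union h B C hBC c, hU] at h2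
      have h3 : ∀ j, dp (fn h A c) (fun e => if e ∈ B then x1 j e else x2 (σ j) e) =
          dp (Sum.elim c c) (u1 j).1 := by
        intro j
        have h4 : dp (Sum.elim c c) (u1 j).1 = dp c (fun v => (u1 j).1 (Sum.inl v)) +
            dp c (fun v => (u1 j).1 (Sum.inr v)) := by
          unfold dp
          rw [Fintype.sum_sum_type]
          simp
        have h5 : (fun v => (u1 j).1 (Sum.inl v)) = stA h B (x1 j) := hu1 j
        have h6 : (fun v => (u1 j).1 (Sum.inr v)) = stA h C (x2 (σ j)) := by
          have h7 := hu2 (σ j)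
          rw [hσ j] at h7
          exact h7
        rw [h4, h5, h6, ← dp_add_right, ← dp_stA]
        congr 1
        ext v
        rw [Pi.add_apply]
        unfold stA
        rw [← hU, Finset.sum_union hBC]
        congr 1
        · apply Finset.sum_congr rfl
          intro e he
          simp only [if_pos he]
        · apply Finset.sum_congr rfl
          intro e he
          have heB : e ∉ B := fun hB' => Finset.disjoint_left.1 hBC hB' he
          simp only [if_neg heB]
      have h4 : ∑ j : Fin T, sg (dp (fn h A c) (fun e => if e ∈ B then x1 j e else x2 (σ j) e)) =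
          T - 2 * n (fn h A c) := by
        rw [← h2, ← hWsum (fun s => sg (dp (Sum.elim c c) s))]
        refine Fintype.sum_equiv u1 _ _ ?_
        intro j
        rw [h3 j]
      rw [sum_sg_count, Fintype.card_fin] at h4
      show ((univ.filter (fun j => dp (fn h A c)
        (fun e => if e ∈ B then x1 j e else x2 (σ j) e) = 1)).card : ℤ) = n (fn h A c)
      omega

end Pool.Agent.H88.TW
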