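import Pool.Agent.H88.TW.Code
import Pool.Agent.H88.God.Disc

set_option autoImplicit false
set_option linter.unusedSectionVars false

/-!
Circuit covers of weighted graphs with a branch decomposition of bounded width.
-/

namespace Pool.Agent.H88.TW

open Finset
open Pool.Agent.Helper879.ECD (F2 IsFlow f2_add_self f2_cases cn inc)
open Pool.Agent.H126R2.CDC (MGraph IsFl isFl_iff)
open Pool.Agent.H126R2.NC
open Pool.Agent.H655R2.GOD
open Pool.Agent.H88.God
open Pool.Agent.W831.ECC (RCone rcone_of_cut)

variable {V E : Type} [Fintype V] [DecidableEq V] [Fintype E] [DecidableEq E]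

lemma dp_inc (a b : E → V) (c : V → ZMod 2) (e : E) : dp c (inc a b e) = c (a e) + c (b e) := by
  unfold inc
  rw [dp_add_right, dp_single_right, dp_single_right]

lemma code_iff (a b : E → V) (x : E → ZMod 2) : x ∈ code (inc a b) ↔ IsFlow a b x := by
  rw [mem_code]
  apply forall_congr'
  intro c
  have h1 : dp (fn (inc a b) univ c) x = ∑ e, x e * (c (a e) + c (b e)) := by
    unfold dp
    apply Finset.sum_congr rfl
    intro e _
    unfold fn
    rw [if_pos (Finset.mem_univ _), dp_inc, mul_comm]
  rw [h1]

/-- edge sets and vectors over the field with two elements -/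
def eqF : (E → ZMod 2) ≃ Finset E where
  toFun D := univ.filter (fun e => D e = 1)
  invFun C := fun e => if e ∈ C then 1 else 0
  left_inv D := by
    ext e
    rcases z2c (D e) with h | h
    · simp [h]
    · simp [h]
  right_inv C := by
    ext e
    simp

lemma mem_eqF (D : E → ZMod 2) (e : E) : e ∈ eqF D ↔ D e = 1 := by
  show e ∈ univ.filter (fun e => D e = 1) ↔ _
  simp

lemma circuit_code (G : MGraph V E) (v : E × Bool → V)
    (hv : ∀ e, G.ends e = s(v (e, false), v (e, true))) (D : E → ZMod 2)
    (hD : G.IsCircuit (eqF D)) :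
    D ∈ code (inc (fun e => v (e, false)) (fun e => v (e, true))) := by
  rw [code_iff]
  have h1 := (isFl_iff v _).1 ((G.isEven_iff v hv (eqF D)).1 hD.isEven)
  have h2 : (fun e => if e ∈ eqF D then (1 : F2) else 0) = D := by
    ext e
    rcases z2c (D e) with h | h
    · rw [if_neg (by rw [mem_eqF, h]; decide), h]
    · rw [if_pos (by rw [mem_eqF, h]), h]
  rw [h2] at h1
  exact h1

/-- a branch decomposition of width at most `k` -/
def Branch (G : MGraph V E) (k : ℕ) (𝒯 : Set (Finset E)) : Prop :=
  univ ∈ 𝒯 ∧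
  (∀ A ∈ 𝒯, 1 < A.card → ∃ B ∈ 𝒯, ∃ C ∈ 𝒯, B.Nonempty ∧ C.Nonempty ∧ Disjoint B C ∧ B ∪ C = A) ∧
  ∀ A ∈ 𝒯, Set.ncard {u : V | (∃ e ∈ A, u ∈ G.ends e) ∧ ∃ e, e ∉ A ∧ u ∈ G.ends e} ≤ k

theorem branch_cover (G : MGraph V E) (k N : ℕ) (hk : 1 ≤ k) (hN : 16 ^ k ≤ 4 * N)
    (𝒯 : Set (Finset E)) (h𝒯 : Branch G k 𝒯) (p : E → ℕ)
    (hcone : ∃ c : Finset E → ℝ, (∀ C, 0 ≤ c C) ∧ (∀ C, c C ≠ 0 → G.IsCircuit C) ∧
      ∀ e, (p e : ℝ) = N + ∑ C : Finset E, if e ∈ C then c C else 0)
    (hlat : (fun e => (p e : ℤ)) ∈ AddSubgroup.closure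
      {x : E → ℤ | ∃ C, G.IsCircuit C ∧ x = fun e => if e ∈ C then 1 else 0}) :
    InIntCone G p := by
  classical
  obtain ⟨v, hv⟩ := G.exists_halves
  obtain ⟨hE, hsplit, hw⟩ := h𝒯
  obtain ⟨c, hc0, hc1, hc2⟩ := hcone
  -- the lattice
  have hZ : ∃ Z : (E → ZMod 2) → ℤ,
      (∀ D, D ∉ code (inc (fun e => v (e, false)) (fun e => v (e, true))) → Z D = 0) ∧
      ∀ e, ∑ D, Z D * (if D e = 1 then 1 else 0) = p e := by
    have h1 : ∀ x : E → ℤ, x ∈ AddSubgroup.closure
        {x : E → ℤ | ∃ C, G.IsCircuit C ∧ x = fun e => if e ∈ C then 1 else 0} →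
        ∃ Z : (E → ZMod 2) → ℤ,
        (∀ D, D ∉ code (inc (fun e => v (e, false)) (fun e => v (e, true))) → Z D = 0) ∧
        ∀ e, ∑ D, Z D * (if D e = 1 then 1 else 0) = x e := by
      intro x hx
      induction hx using AddSubgroup.closure_induction with
      | mem x hx =>
        obtain ⟨C, hC, rfl⟩ := hx
        refine ⟨fun D => if D = eqF.symm C then 1 else 0, ?_, ?_⟩
        · intro D hD
          show (if D = eqF.symm C then (1 : ℤ) else 0) = 0
          rw [if_neg]
          intro h
          apply hD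
          apply circuit_code G v hv
          rw [h, Equiv.apply_symm_apply]
          exact hC
        · intro e
          have h2 : ∀ D ∈ (univ : Finset (E → ZMod 2)),
              (if D = eqF.symm C then (1 : ℤ) else 0) * (if D e = 1 then 1 else 0) =
              if D = eqF.symm C then (if D e = 1 then 1 else 0) else 0 := by
            intro D _
            split_ifs <;> simp
          rw [Finset.sum_congr rfl h2, Finset.sum_ite_eq' univ (eqF.symm C),
            if_pos (Finset.mem_univ _)]
          have h3 : (eqF.symm C) e = 1 ↔ e ∈ C := by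
            rw [← mem_eqF, Equiv.apply_symm_apply]
          simp only [h3]
      | zero => exact ⟨fun _ => 0, fun _ _ => rfl, fun e => by simp⟩
      | add x y _ _ hx hy =>
        obtain ⟨Z1, h2, h3⟩ := hx
        obtain ⟨Z2, h4, h5⟩ := hy
        refine ⟨fun D => Z1 D + Z2 D, fun D hD => by
          show Z1 D + Z2 D = 0
          rw [h2 D hD, h4 D hD, add_zero], ?_⟩
        intro e
        rw [Pi.add_apply, ← h3 e, ← h5 e, ← Finset.sum_add_distrib]
        exact Finset.sum_congr rfl (fun D _ => by ring)
      | neg x _ hx =>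
        obtain ⟨Z1, h2, h3⟩ := hx
        refine ⟨fun D => - Z1 D, fun D hD => by
          show - Z1 D = 0
          rw [h2 D hD, neg_zero], ?_⟩
        intro e
        rw [Pi.neg_apply, ← h3 e, ← Finset.sum_neg_distrib]
        exact Finset.sum_congr rfl (fun D _ => by ring)
    exact h1 _ hlat
  obtain ⟨Z, hZ1, hZ2⟩ := hZ
  obtain ⟨T, x, hx1, hx2⟩ := code_cover (inc (fun e => v (e, false)) (fun e => v (e, true))) k N hk
    hN 𝒯 hE hsplit (by
      intro A hA
      refine le_trans ?_ (hw A hA)
      rw [← Set.ncard_coe_finset]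
      apply Set.ncard_le_ncard _ (Set.toFinite _)
      intro u hu
      have hinc : ∀ e, inc (fun e => v (e, false)) (fun e => v (e, true)) e u = 1 →
          u ∈ G.ends e := by
        intro e he
        rw [hv e, Sym2.mem_iff]
        by_contra hcon
        rw [not_or] at hcon
        unfold inc at he
        rw [Pi.add_apply, Pi.single_eq_of_ne hcon.1, Pi.single_eq_of_ne hcon.2] at he
        exact absurd he (by decide)
      simp only [Finset.coe_filter, Finset.mem_univ, true_and, Set.mem_ofPred_eq] at hu ⊢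
      obtain ⟨⟨e, he, hue⟩, ⟨f, hf, huf⟩⟩ := hu
      exact ⟨⟨e, he, hinc e hue⟩, ⟨f, hf, hinc f huf⟩⟩)
    p (fun D => c (eqF D)) (fun D => hc0 _) (by
      intro D hD
      by_contra h
      exact hD (circuit_code G v hv D (hc1 _ h))) (by
      intro e
      rw [hc2 e, add_comm]
      congr 1
      refine Fintype.sum_equiv eqF _ _ ?_
      intro D
      simp only [mem_eqF]
      split_ifs <;> simp) Z hZ1 hZ2
  have h1 := sum_cover G (univ : Finset (Fin T)) _ (fun j _ =>
    cover_flow G v hv (x j) ((code_iff _ _ _).1 (hx1 j)))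
  convert h1 using 2 with e
  rw [← hx2 e, Finset.card_filter]

/-- the condition on cuts -/
theorem branch_cover_adm (G : MGraph V E) (hG : ∀ X : Finset V, (cut G X).card ≠ 1)
    (k N : ℕ) (hk : 1 ≤ k) (hN : 16 ^ k ≤ 4 * N)
    (𝒯 : Set (Finset E)) (h𝒯 : Branch G k 𝒯) (w : E → ℕ)
    (hadm : ∀ X : Finset V, ∀ e ∈ cut G X, 2 * w e ≤ ∑ f ∈ cut G X, w f)
    (heul : ∀ X : Finset V, Even (∑ e ∈ cut G X, (w e + N))) :
    InIntCone G (fun e => w e + N) := by
  classical
  obtain ⟨v, hv⟩ := G.exists_halves
  have hbr : ∀ X : Finset V, cn (fun e => v (e, false)) (fun e => v (e, true)) univ X ≠ 1 :=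
    fun X => by rw [card_cut_eq G v hv]; exact hG X
  obtain ⟨c, hc0, hc1, hc2⟩ := rcone_of_adm G v hv w hadm
  apply branch_cover G k N hk hN 𝒯 h𝒯
  · refine ⟨c, hc0, fun C hC => ?_, fun e => ?_⟩
    · by_contra h
      exact hC (hc1 C h)
    · have h1 : (w e : ℝ) = ∑ C : Finset E, c C * (if e ∈ C then 1 else 0) := hc2 e
      push_cast
      rw [h1, add_comm]
      congr 1
      exact Finset.sum_congr rfl (fun C _ => by split_ifs <;> simp)
  · -- a large even constant
    obtain ⟨m, hm⟩ : ∃ m : ℕ, ∀ e, w e + N ≤ m :=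
      ⟨∑ e, (w e + N), fun e => Finset.single_le_sum (f := fun e => w e + N)
        (fun _ _ => Nat.zero_le _) (Finset.mem_univ e)⟩
    let K : ℕ := 2 * (7 * m + 91)
    have hbl := bridgeless_of_cn G v hv hbr
    have h1 : InIntCone G (fun _ => K) := by
      apply near_cover97 G v hv hbl
      · intro X
        rw [Finset.sum_const, smul_eq_mul]
        exact ((even_two_mul _)).mul_left _
      · intro _ _ _; rfl
      · intro _ _
        show 7 * K + 91 ≤ 9 * K
        simp only [K]
        omega
    have h2 : InIntCone G (fun e => w e + N + K) := by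
      apply near_cover97 G v hv hbl
      · intro X
        rw [Finset.sum_add_distrib, Finset.sum_const, smul_eq_mul]
        exact (heul X).add ((even_two_mul _).mul_left _)
      · intro e f hef
        have h3 : w e = w f := by
          have h4 : (w e : ℝ) = w f := by
            have h5 := hc2 e
            have h6 := hc2 f
            simp only at h5 h6
            rw [h5, h6]
            apply Finset.sum_congr rfl
            intro C _
            by_cases hC : G.IsCircuit C
            · have h7 := circuit_tc G v hv hC hef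
              by_cases he : e ∈ C
              · rw [if_pos he, if_pos (h7.1 he)]
              · rw [if_neg he, if_neg (fun h => he (h7.2 h))]
            · rw [hc1 C hC, zero_mul, zero_mul]
          exact_mod_cast h4
        show w e + N + K = w f + N + K
        rw [h3]
      · intro e f
        have h3 := hm e
        show 7 * (w e + N + K) + 91 ≤ 9 * (w f + N + K)
        simp only [K]
        omega
    have h3 := (cone_lat_of_intCone G _ h1).2
    have h4 := (cone_lat_of_intCone G _ h2).2
    have h5 := AddSubgroup.sub_mem _ h4 h3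
    convert h5 using 1
    ext e
    simp

end Pool.Agent.H88.TW
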