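import Pool.Agent.H88.TW.Fourier

set_option autoImplicit false
set_option linter.unusedSectionVars false

/-!
Rounding the local distributions of a real combination of the words of a binary code, in a way
which is consistent for all functionals of the code.
-/

namespace Pool.Agent.H88.TW

open Finset

lemma dp_comm {ι : Type} [Fintype ι] (c s : ι → ZMod 2) : dp c s = dp s c :=
  Finset.sum_congr rfl (fun _ _ => mul_comm _ _)

variable {E : Type} [Fintype E] [DecidableEq E]

/-- the total weight of the words `D` with `f D = 1` -/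
def yy (z : (E → ZMod 2) → ℝ) (f : E → ZMod 2) : ℝ := ∑ D, z D * (if dp f D = 1 then 1 else 0)

/-- the same for integral weights -/
def nn (Z : (E → ZMod 2) → ℤ) (f : E → ZMod 2) : ℤ := ∑ D, Z D * (if dp f D = 1 then 1 else 0)

/-- the correction -/
noncomputable def kk (M : ℕ) (z : (E → ZMod 2) → ℝ) (Z : (E → ZMod 2) → ℤ) (f : E → ZMod 2) : ℤ :=
  round ((yy z f - nn Z f) / M)

/-- the rounded values -/
noncomputable def rn (M : ℕ) (z : (E → ZMod 2) → ℝ) (Z : (E → ZMod 2) → ℤ) (f : E → ZMod 2) : ℤ :=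
  nn Z f + M * kk M z Z f

lemma rn_close (M : ℕ) (hM : 0 < M) (z : (E → ZMod 2) → ℝ) (Z : (E → ZMod 2) → ℤ)
    (f : E → ZMod 2) : |yy z f - rn M z Z f| ≤ M / 2 := by
  unfold rn kk
  have hM' : (0 : ℝ) < M := by exact_mod_cast hM
  have h1 := abs_sub_round ((yy z f - nn Z f) / M)
  have h2 : yy z f - ((nn Z f + M * round ((yy z f - nn Z f) / M) : ℤ) : ℝ) =
      M * ((yy z f - nn Z f) / M - round ((yy z f - nn Z f) / M)) := by
    push_cast
    field_simp
    ring
  rw [h2, abs_mul, abs_of_pos hM']
  nlinarith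

lemma rn_eq (M : ℕ) (z : (E → ZMod 2) → ℝ) (Z : (E → ZMod 2) → ℤ)
    (f : E → ZMod 2) (h : yy z f = nn Z f) : rn M z Z f = nn Z f := by
  unfold rn kk
  rw [h, sub_self, zero_div, round_zero, mul_zero, add_zero]

section
open Classical

variable {ι : Type} [Fintype ι] [DecidableEq ι]

/-- the transform of the image of a signed family of words -/
lemma transform_image {R : Type} [CommRing R] (C : Submodule (ZMod 2) (E → ZMod 2))
    (st : (E → ZMod 2) →ₗ[ZMod 2] (ι → ZMod 2)) (f : (ι → ZMod 2) → (E → ZMod 2))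
    (hf : ∀ c, ∀ D ∈ C, dp (f c) D = dp c (st D)) (Z : (E → ZMod 2) → R)
    (hZ : ∀ D, D ∉ C → Z D = 0) (c : ι → ZMod 2) :
    ∑ s : ι → ZMod 2, ((sg (dp c s) : ℤ) : R) * (∑ D, if st D = s then Z D else 0) =
      ∑ D, Z D - 2 * ∑ D, Z D * (if dp (f c) D = 1 then 1 else 0) := by
  have h1 : ∀ s ∈ (univ : Finset (ι → ZMod 2)),
      ((sg (dp c s) : ℤ) : R) * (∑ D, if st D = s then Z D else 0) =
      ∑ D, if st D = s then ((sg (dp c s) : ℤ) : R) * Z D else 0 := by
    intro s _
    rw [Finset.mul_sum]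
    apply Finset.sum_congr rfl
    intro D _
    split_ifs
    · rfl
    · rw [mul_zero]
  rw [Finset.sum_congr rfl h1, Finset.sum_comm]
  have h2 : ∀ D ∈ (univ : Finset (E → ZMod 2)),
      (∑ s : ι → ZMod 2, if st D = s then ((sg (dp c s) : ℤ) : R) * Z D else 0) =
      Z D - 2 * (Z D * (if dp (f c) D = 1 then 1 else 0)) := by
    intro D _
    rw [Finset.sum_ite_eq univ (st D), if_pos (Finset.mem_univ _)]
    by_cases hD : D ∈ C
    · rw [← hf c D hD, sg_eq]
      split_ifs <;> push_cast <;> ring
    · rw [hZ D hD]; ring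
  rw [Finset.sum_congr rfl h2, Finset.sum_sub_distrib, Finset.mul_sum]

/-- Rounding. -/
theorem local_round (C : Submodule (ZMod 2) (E → ZMod 2)) (T N r M : ℕ)
    (z : (E → ZMod 2) → ℝ) (Z : (E → ZMod 2) → ℤ)
    (hz : ∀ D, D ∉ C → z D = 0) (hZ : ∀ D, D ∉ C → Z D = 0)
    (hzT : ∑ D, z D = T) (hZT : ∑ D, Z D = T)
    (hlow : ∀ D ∈ C, (2 * N : ℝ) ≤ z D * (univ.filter (fun D => D ∈ C)).card)
    (hM : 2 * M = 2 ^ r) (hN : 4 ^ r ≤ 4 * N)
    (st : (E → ZMod 2) →ₗ[ZMod 2] (ι → ZMod 2)) (f : (ι → ZMod 2) → (E → ZMod 2))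
    (hf : ∀ c, ∀ D ∈ C, dp (f c) D = dp c (st D))
    (J : Finset ι) (hJ : ∀ D ∈ C, ∀ i, i ∉ J → st D i = 0) (hJr : J.card ≤ r) :
    ∃ Y : (ι → ZMod 2) → ℤ, (∀ s, 0 ≤ Y s) ∧
      ∀ c, ∑ s : ι → ZMod 2, sg (dp c s) * Y s = T - 2 * rn M z Z (f c) := by
  have hM0 : 0 < M := by
    have : 0 < 2 ^ r := by positivity
    omega
  have hM0' : (0 : ℝ) < M := by exact_mod_cast hM0
  -- functionals which agree on the code have the same values
  have hinv : ∀ c d : ι → ZMod 2, (∀ D ∈ C, dp c (st D) = dp d (st D)) →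
      kk M z Z (f c) = kk M z Z (f d) := by
    intro c d h
    have h1 : yy z (f c) = yy z (f d) := by
      unfold yy
      apply Finset.sum_congr rfl
      intro D _
      by_cases hD : D ∈ C
      · rw [hf c D hD, hf d D hD, h D hD]
      · rw [hz D hD, zero_mul, zero_mul]
    have h2 : nn Z (f c) = nn Z (f d) := by
      unfold nn
      apply Finset.sum_congr rfl
      intro D _
      by_cases hD : D ∈ C
      · rw [hf c D hD, hf d D hD, h D hD]
      · rw [hZ D hD, zero_mul, zero_mul]
    unfold kk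
    rw [h1, h2]
  let g : (ι → ZMod 2) → ℤ := fun c => kk M z Z (f c)
  let K : (ι → ZMod 2) → ℤ := fun s => ∑ c : ι → ZMod 2, sg (dp c s) * g c
  have hdvd : ∀ s, (2 : ℤ) ^ Fintype.card ι ∣ 2 * M * K s := by
    intro s
    have h1 := dvd_transform s (univ \ J) g (by
      intro i hi c
      rw [Finset.mem_sdiff] at hi
      apply hinv
      intro D hD
      rw [dp_add_left, dp_single_left, hJ D hD i hi.2, add_zero])
    have h2 : Fintype.card ι ≤ (univ \ J).card + r := by
      rw [Finset.card_sdiff_of_subset (Finset.subset_univ J), Finset.card_univ]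
      omega
    have h3 : (2 : ℤ) * M = 2 ^ r := by exact_mod_cast hM
    rw [h3]
    refine (pow_dvd_pow 2 h2).trans ?_
    rw [pow_add, mul_comm]
    exact mul_dvd_mul_left _ h1
  choose q hq using hdvd
  let Y0 : (ι → ZMod 2) → ℤ := fun s => ∑ D, if st D = s then Z D else 0
  have htr0 : ∀ c, ∑ s : ι → ZMod 2, sg (dp c s) * Y0 s = T - 2 * nn Z (f c) := by
    intro c
    have h1 := transform_image C st f hf Z hZ c
    simp only [Int.cast_id] at h1
    rw [hZT] at h1
    exact h1
  have htr : ∀ c, ∑ s : ι → ZMod 2, sg (dp c s) * (Y0 s - q s) = T - 2 * rn M z Z (f c) := by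
    intro c
    have h1 : (2 : ℤ) ^ Fintype.card ι * ∑ s : ι → ZMod 2, sg (dp c s) * q s =
        2 ^ Fintype.card ι * (2 * M * g c) := by
      have h2 := inv_formula g c
      simp only [Int.cast_id] at h2
      rw [show (2 : ℤ) ^ Fintype.card ι * (2 * M * g c) = 2 * M * (2 ^ Fintype.card ι * g c) by ring,
        ← h2, Finset.mul_sum, Finset.mul_sum]
      apply Finset.sum_congr rfl
      intro s _
      have h3 := hq s
      simp only [K] at h3
      have h4 : ∑ t : ι → ZMod 2, sg (dp s t) * g t = ∑ t : ι → ZMod 2, sg (dp t s) * g t :=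
        Finset.sum_congr rfl (fun t _ => by rw [dp_comm])
      rw [h4, dp_comm s c]
      linear_combination (-(sg (dp c s))) * h3
    have h2 := mul_left_cancel₀ (by positivity : (2 : ℤ) ^ Fintype.card ι ≠ 0) h1
    have h3 : ∑ s : ι → ZMod 2, sg (dp c s) * (Y0 s - q s) =
        ∑ s : ι → ZMod 2, sg (dp c s) * Y0 s - ∑ s : ι → ZMod 2, sg (dp c s) * q s := by
      rw [← Finset.sum_sub_distrib]
      exact Finset.sum_congr rfl (fun s _ => by ring)
    rw [h3, htr0 c, h2]
    unfold rn
    ring
  refine ⟨fun s => Y0 s - q s, ?_, htr⟩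
  intro s
  show 0 ≤ Y0 s - q s
  by_cases hs : s ∈ C.map st
  · -- close to the real distribution
    let y : (ι → ZMod 2) → ℝ := fun s => ∑ D, if st D = s then z D else 0
    have htry : ∀ c, ∑ s : ι → ZMod 2, ((sg (dp c s) : ℤ) : ℝ) * y s = T - 2 * yy z (f c) := by
      intro c
      have h1 := transform_image C st f hf z hz c
      rw [hzT] at h1
      exact h1
    have h1 := inv_formula y s
    have h2 := inv_formula (fun s => (((Y0 s - q s : ℤ)) : ℝ)) s
    have h3 : ∀ c, ∑ t : ι → ZMod 2, ((sg (dp c t) : ℤ) : ℝ) * (((Y0 t - q t : ℤ)) : ℝ) =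
        T - 2 * rn M z Z (f c) := by
      intro c
      have h4 := htr c
      exact_mod_cast h4
    simp only [htry] at h1
    simp only [h3] at h2
    have h4 : (2 : ℝ) ^ Fintype.card ι * (y s - ((Y0 s - q s : ℤ) : ℝ)) =
        ∑ c : ι → ZMod 2, ((sg (dp c s) : ℤ) : ℝ) * (-2 * (yy z (f c) - rn M z Z (f c))) := by
      rw [mul_sub, ← h1, ← h2, ← Finset.sum_sub_distrib]
      apply Finset.sum_congr rfl
      intro c _
      ring
    have h5 : |∑ c : ι → ZMod 2, ((sg (dp c s) : ℤ) : ℝ) * (-2 * (yy z (f c) - rn M z Z (f c)))| ≤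
        2 ^ Fintype.card ι * M := by
      refine (Finset.abs_sum_le_sum_abs _ _).trans ?_
      have h6 : ∀ c ∈ (univ : Finset (ι → ZMod 2)),
          |((sg (dp c s) : ℤ) : ℝ) * (-2 * (yy z (f c) - rn M z Z (f c)))| ≤ M := by
        intro c _
        have h7 : |((sg (dp c s) : ℤ) : ℝ)| = 1 := by
          rw [← Int.cast_abs, sg_abs, Int.cast_one]
        rw [abs_mul, h7, one_mul, abs_mul, abs_neg, abs_two]
        have := rn_close M hM0 z Z (f c)
        linarith
      refine (Finset.sum_le_sum h6).trans ?_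
      rw [Finset.sum_const, Finset.card_univ, Fintype.card_fun, ZMod.card, nsmul_eq_mul]
      push_cast
      exact le_rfl
    rw [← h4, abs_mul, abs_of_pos (by positivity : (0 : ℝ) < 2 ^ Fintype.card ι)] at h5
    have h6 : |y s - ((Y0 s - q s : ℤ) : ℝ)| ≤ M :=
      le_of_mul_le_mul_left h5 (by positivity)
    -- the lower bound
    obtain ⟨D0, hD0, hD0s⟩ := Submodule.mem_map.1 hs
    let Cf : Finset (E → ZMod 2) := univ.filter (fun D => D ∈ C)
    have hCpos : 0 < Cf.card := Finset.card_pos.2 ⟨0, by simp [Cf]⟩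
    let F : Finset (E → ZMod 2) := Cf.filter (fun D => st D = s)
    have hfib : ∀ t ∈ Cf.image st, (Cf.filter (fun D => st D = t)).card = F.card := by
      intro t ht
      obtain ⟨D1, hD1, hD1t⟩ := Finset.mem_image.1 ht
      have hD1C : D1 ∈ C := (Finset.mem_filter.1 hD1).2
      have hxx : ∀ u : E → ZMod 2, u + u = 0 := by
        intro u; ext e; exact z2s _
      have hyy : ∀ u : ι → ZMod 2, u + u = 0 := by
        intro u; ext e; exact z2s _
      refine Finset.card_bij' (fun D _ => D + (D0 + D1)) (fun D _ => D + (D0 + D1)) ?_ ?_ ?_ ?_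
      · intro D hD
        simp only [F, Cf, Finset.mem_filter, Finset.mem_univ, true_and] at hD ⊢
        refine ⟨C.add_mem hD.1 (C.add_mem hD0 hD1C), ?_⟩
        rw [map_add, map_add, hD.2, hD0s, hD1t, add_comm s t, ← add_assoc, hyy, zero_add]
      · intro D hD
        simp only [F, Cf, Finset.mem_filter, Finset.mem_univ, true_and] at hD ⊢
        refine ⟨C.add_mem hD.1 (C.add_mem hD0 hD1C), ?_⟩
        rw [map_add, map_add, hD.2, hD0s, hD1t, ← add_assoc, hyy, zero_add]
      · intro D _
        show D + (D0 + D1) + (D0 + D1) = D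
        rw [add_assoc, hxx, add_zero]
      · intro D _
        show D + (D0 + D1) + (D0 + D1) = D
        rw [add_assoc, hxx, add_zero]
    have hcard : Cf.card ≤ 2 ^ r * F.card := by
      have h7 : Cf.card = (Cf.image st).card * F.card := by
        rw [Finset.card_eq_sum_card_image st Cf, Finset.sum_congr rfl hfib, Finset.sum_const,
          smul_eq_mul]
      have h8 : (Cf.image st).card ≤ 2 ^ J.card := by
        apply card_support_le J
        intro t ht i hi
        obtain ⟨D1, hD1, rfl⟩ := Finset.mem_image.1 ht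
        exact hJ D1 (Finset.mem_filter.1 hD1).2 i hi
      rw [h7]
      exact Nat.mul_le_mul_right _ (h8.trans (Nat.pow_le_pow_right (by norm_num) hJr))
    have hys : y s = ∑ D ∈ F, z D := by
      simp only [y, F, Cf]
      rw [Finset.sum_filter, Finset.sum_filter]
      apply Finset.sum_congr rfl
      intro D _
      by_cases hD : D ∈ C
      · rw [if_pos hD]
      · rw [if_neg hD, hz D hD]
        split_ifs <;> rfl
    have hCpos' : (0 : ℝ) < Cf.card := by exact_mod_cast hCpos
    have hlow2 : (2 * N : ℝ) * F.card ≤ y s * Cf.card := by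
      rw [hys, Finset.sum_mul]
      have h9 : ∀ D ∈ F, (2 * N : ℝ) ≤ z D * Cf.card := by
        intro D hD
        exact hlow D (Finset.mem_filter.1 (Finset.mem_filter.1 hD).1).2
      have h10 := Finset.sum_le_sum h9
      rw [Finset.sum_const, nsmul_eq_mul] at h10
      linarith
    have hyM : (M : ℝ) ≤ y s := by
      have h11 : (Cf.card : ℝ) ≤ 2 ^ r * F.card := by exact_mod_cast hcard
      have h12 : (2 * M : ℝ) = 2 ^ r := by exact_mod_cast hM
      have h13 : (4 : ℝ) ^ r ≤ 4 * N := by exact_mod_cast hN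
      have h14 : (4 : ℝ) ^ r = 2 ^ r * 2 ^ r := by rw [← mul_pow]; norm_num
      have h15 : (M : ℝ) * Cf.card ≤ y s * Cf.card := by
        refine le_trans ?_ hlow2
        calc (M : ℝ) * Cf.card ≤ M * (2 ^ r * F.card) := by
              exact mul_le_mul_of_nonneg_left h11 hM0'.le
          _ = (2 ^ r * M) * F.card := by ring
          _ ≤ (2 * N) * F.card := by
              apply mul_le_mul_of_nonneg_right _ (Nat.cast_nonneg _)
              have h16 : (2 : ℝ) * (2 ^ r * M) ≤ 2 * (2 * N) := by
                calc (2 : ℝ) * (2 ^ r * M) = 2 ^ r * (2 * M) := by ring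
                  _ = 2 ^ r * 2 ^ r := by rw [h12]
                  _ ≤ 4 * N := by rw [← h14]; exact h13
                  _ = 2 * (2 * N) := by ring
              linarith
      exact le_of_mul_le_mul_right h15 hCpos'
    have h17 := (abs_le.1 h6).2
    have h18 : (0 : ℝ) ≤ ((Y0 s - q s : ℤ) : ℝ) := by linarith
    exact_mod_cast h18
  · -- outside of the image everything vanishes
    have h1 : Y0 s = 0 := by
      apply Finset.sum_eq_zero
      intro D _
      by_cases hD : D ∈ C
      · have h0 : st D ≠ s := by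
          intro h
          exact hs (h ▸ Submodule.mem_map_of_mem hD)
        rw [if_neg h0]
      · rw [hZ D hD]
        split_ifs <;> rfl
    have h2 : q s = 0 := by
      obtain ⟨c0, hc1, hc2⟩ := exists_sep (C.map st) s hs
      have h3 : K s = - K s := by
        have h4 : K s = ∑ c : ι → ZMod 2, sg (dp (c + c0) s) * g (c + c0) :=
          (Fintype.sum_equiv (Equiv.addRight c0) _ _ (fun s => rfl)).symm
        have h5 : ∑ c : ι → ZMod 2, sg (dp (c + c0) s) * g (c + c0) = - K s := by
          simp only [K]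
          rw [← Finset.sum_neg_distrib]
          apply Finset.sum_congr rfl
          intro c _
          have h6 : g (c + c0) = g c := by
            apply hinv
            intro D hD
            rw [dp_add_left, hc2 _ (Submodule.mem_map_of_mem hD), add_zero]
          rw [h6, dp_add_left, hc1, sg_add, sg_one]
          ring
        rw [h5] at h4
        exact h4
      have h4 : K s = 0 := by omega
      have h5 := hq s
      rw [h4, mul_zero] at h5
      rcases mul_eq_zero.1 h5.symm with h6 | h6
      · exact absurd h6 (by positivity)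
      · exact h6
    rw [h1, h2]
    norm_num

end

end Pool.Agent.H88.TW
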